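import Pool.Agent.Lib_helper73.QH.Sub

/-!
# Simple zeros up to height `T` for Hecke L-functions
-/

set_option autoImplicit false

namespace Pool.Agent.QH

open NumberField NumberField.InfinitePlace NumberField.Units Complex MeasureTheory Filter Topology
open Pool.Agent.HZ Pool.Agent.AS Pool.Agent.KS Pool.Agent.LVK
open scoped ENNReal

variable {K : Type} [Field K] [NumberField K]

/-- The number of `0 < t ≤ T` such that `1/2 + it` is a simple zero of `Λ`. -/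
noncomputable def nSimple (Λ : ℂ → ℂ) (T : ℝ) : ℝ≥0∞ :=
  ({t : ℝ | 0 < t ∧ t ≤ T ∧ analyticOrderAt Λ (1 / 2 + t * I) = 1}.encard : ℝ≥0∞)

/-- The number of all zeros `ρ` of `Λ` with `0 < Im ρ ≤ T`, counted with multiplicity. -/
noncomputable def nAll (Λ : ℂ → ℂ) (T : ℝ) : ℝ≥0∞ :=
  ∑' ρ : {ρ : ℂ // 0 < ρ.im ∧ ρ.im ≤ T}, (analyticOrderNatAt Λ ρ.1 : ℝ≥0∞)

theorem simple_le (Λ : ℂ → ℂ) {a T : ℝ} (h : a ≤ T) : simpleCritical Λ 0 a ≤ nSimple Λ T := by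
  unfold simpleCritical nSimple
  have h1 : {t : ℝ | 0 < t ∧ t < a ∧ analyticOrderAt Λ (1 / 2 + t * I) = 1} ⊆
      {t : ℝ | 0 < t ∧ t ≤ T ∧ analyticOrderAt Λ (1 / 2 + t * I) = 1} := by
    rintro t ⟨h1, h2, h3⟩
    exact ⟨h1, h2.le.trans h, h3⟩
  exact_mod_cast Set.encard_le_encard h1

theorem all_le (Λ : ℂ → ℂ) {b T : ℝ} (h : T < b) : nAll Λ T ≤ allZeros Λ 0 b := by
  unfold nAll allZeros
  refine ENNReal.tsum_mono_subtype (fun ρ : ℂ => (analyticOrderNatAt Λ ρ : ℝ≥0∞))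
    (s := {ρ : ℂ | 0 < ρ.im ∧ ρ.im ≤ T}) (t := {ρ : ℂ | 0 < ρ.im ∧ ρ.im < b}) ?_
  rintro ρ ⟨h1, h2⟩
  exact ⟨h1, h2.trans_lt h⟩

theorem simple_le_all (Λ : ℂ → ℂ) (T : ℝ) : nSimple Λ T ≤ nAll Λ T := by
  unfold nSimple nAll
  rw [← ENNReal.tsum_set_one]
  set S : Set ℝ := {t : ℝ | 0 < t ∧ t ≤ T ∧ analyticOrderAt Λ (1 / 2 + t * I) = 1}
  have him : ∀ t : ℝ, ((1 : ℂ) / 2 + t * I).im = t := by
    intro t
    simp
  let f : S → {ρ : ℂ // 0 < ρ.im ∧ ρ.im ≤ T} := fun t => ⟨1 / 2 + (t.1 : ℂ) * I, by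
    rw [him]
    exact ⟨t.2.1, t.2.2.1⟩⟩
  have hf : Function.Injective f := by
    intro t t' h
    have h1 := congrArg (fun x => x.1.im) h
    simp only [f, him] at h1
    exact Subtype.ext h1
  have h2 : ∀ t : S, (1 : ℝ≥0∞) = (analyticOrderNatAt Λ (f t).1 : ℝ≥0∞) := by
    intro t
    have h3 : analyticOrderNatAt Λ (f t).1 = 1 := (tc5_nat Λ _).2 t.2.2.2
    rw [h3]
    simp
  calc ∑' _ : S, (1 : ℝ≥0∞) = ∑' t : S, (analyticOrderNatAt Λ (f t).1 : ℝ≥0∞) :=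
        tsum_congr h2
    _ ≤ _ := ENNReal.tsum_comp_le_tsum_of_injective hf
        (fun ρ : {ρ : ℂ // 0 < ρ.im ∧ ρ.im ≤ T} => (analyticOrderNatAt Λ ρ.1 : ℝ≥0∞))

theorem fam_good {x1 x2 B ε c : ℝ} (hB : 0 < B) (hx : x1 < x2) (hε : 0 < ε) (hc : 0 < c)
    (hc1 : c ≤ 1) :
    ∃ C : ℝ, ∀ 𝔮 : Ideal (𝓞 K), C ≤ Ideal.absNorm 𝔮 → ∀ F : Finset (HDat 𝔮),
      (∀ t, t ∈ F ↔ t ∈ Fam 𝔮 B) → ∀ G : Finset (HDat 𝔮), G ⊆ F →
      ∀ Λ : HDat 𝔮 → ℂ → ℂ, (∀ t ∈ F, IsCompleted t.κ t.lam t.ψ (Λ t)) →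
      ∑ t ∈ G, allZeros (Λ t) x1 x2 ≤ ENNReal.ofReal ((G.card + c * F.card) * ((1 + ε) *
        (Real.log (Ideal.absNorm 𝔮) / (2 * Real.pi)) * (x2 - x1))) := by
  classical
  obtain ⟨C, hC⟩ := tc6_max (tc6_finite K B) (fun κ x => ∀ 𝔮 : Ideal (𝓞 K),
      x = Ideal.absNorm 𝔮 → ∀ E : Finset (HDat 𝔮),
      (∀ t, t ∈ E ↔ t ∈ FamB 𝔮 κ B) → ∀ G : Finset (HDat 𝔮), G ⊆ E →
      ∀ Λ : HDat 𝔮 → ℂ → ℂ, (∀ t ∈ E, IsCompleted t.κ t.lam t.ψ (Λ t)) →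
      ∑ t ∈ G, allZeros (Λ t) x1 x2 ≤ ENNReal.ofReal ((G.card + c * E.card) * ((1 + ε) *
        (Real.log (Ideal.absNorm 𝔮) / (2 * Real.pi)) * (x2 - x1)))) (by
    intro κ hκ
    obtain ⟨C, hC⟩ := per_good hκ.1 hB hx hε hc hc1
    exact ⟨C, fun x hx' 𝔮 h𝔮 => hC 𝔮 (h𝔮 ▸ hx')⟩)
  refine ⟨max C 1, fun 𝔮 hN F hF G hG Λ hΛ => ?_⟩
  have hNC : C ≤ Ideal.absNorm 𝔮 := (le_max_left _ _).trans hN
  have hN1 : (1 : ℝ) ≤ Ideal.absNorm 𝔮 := (le_max_right _ _).trans hN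
  set Q : ℝ := (1 + ε) * (Real.log (Ideal.absNorm 𝔮) / (2 * Real.pi)) * (x2 - x1) with hQ
  have hQ0 : 0 ≤ Q := by
    have h1 : 0 ≤ Real.log (Ideal.absNorm 𝔮) := Real.log_nonneg hN1
    have h2 : 0 < x2 - x1 := by linarith
    positivity
  set KK : Finset (InfinitePlace K → ℤ) := (tc6_finite K B).toFinset with hKK
  have hKK' : ∀ κ, κ ∈ KK ↔ κ ∈ tc6K K B := fun κ => (tc6_finite K B).mem_toFinset
  have hmap : ∀ t ∈ F, t.κ ∈ KK := fun t ht => (hKK' _).2 (tc6_mem.1 ((hF t).1 ht)).1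
  have hmapG : ∀ t ∈ G, t.κ ∈ KK := fun t ht => hmap t (hG ht)
  have hE : ∀ κ ∈ KK, ∀ t, t ∈ F.filter (fun t => t.κ = κ) ↔ t ∈ FamB 𝔮 κ B := by
    intro κ hκ t
    rw [Finset.mem_filter, hF, tc6_mem]
    constructor
    · rintro ⟨⟨-, h2⟩, h3⟩
      rw [← h3]
      exact h2
    · intro h2
      have h3 : t.κ = κ := h2.1.1
      rw [h3]
      exact ⟨⟨(hKK' κ).1 hκ, h2⟩, rfl⟩
  have hk : ∀ κ ∈ KK, ∑ t ∈ G.filter (fun t => t.κ = κ), allZeros (Λ t) x1 x2 ≤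
      ENNReal.ofReal (((G.filter (fun t => t.κ = κ)).card +
        c * (F.filter (fun t => t.κ = κ)).card) * Q) := by
    intro κ hκ
    exact hC _ hNC κ ((hKK' κ).1 hκ) 𝔮 rfl _ (hE κ hκ) _
      (Finset.filter_subset_filter _ hG) Λ (fun t ht => hΛ t (Finset.mem_filter.1 ht).1)
  have h1 : ∑ t ∈ G, allZeros (Λ t) x1 x2 =
      ∑ κ ∈ KK, ∑ t ∈ G.filter (fun t => t.κ = κ), allZeros (Λ t) x1 x2 :=
    (Finset.sum_fiberwise_of_maps_to hmapG _).symm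
  rw [h1]
  refine (Finset.sum_le_sum hk).trans ?_
  rw [← ENNReal.ofReal_sum_of_nonneg (fun κ _ => mul_nonneg (by positivity) hQ0)]
  apply ENNReal.ofReal_le_ofReal
  rw [← Finset.sum_mul, Finset.sum_add_distrib, ← Finset.mul_sum]
  have h2 : (G.card : ℝ) = ∑ κ ∈ KK, ((G.filter (fun t => t.κ = κ)).card : ℝ) := by
    rw [Finset.card_eq_sum_card_fiberwise hmapG]
    push_cast
    rfl
  have h3 : (F.card : ℝ) = ∑ κ ∈ KK, ((F.filter (fun t => t.κ = κ)).card : ℝ) := by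
    rw [Finset.card_eq_sum_card_fiberwise hmap]
    push_cast
    rfl
  rw [h2, h3]

/-- the diagonal argument -/
theorem diag (P : ℕ → ℕ → Prop) (h : ∀ j, ∃ C : ℝ, ∀ n : ℕ, C ≤ n → P j n) :
    ∃ J : ℕ → ℕ, Tendsto J atTop atTop ∧ ∀ n j, 0 < J n → j ≤ J n → P j n := by
  classical
  choose C hC using h
  set D : ℕ → ℝ := fun J => ∑ j ∈ Finset.range (J + 1), |C j| with hD
  have hDC : ∀ J j, j ≤ J → C j ≤ D J := by
    intro J j hj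
    have h1 : |C j| ≤ D J := Finset.single_le_sum (f := fun j => |C j|)
      (fun _ _ => abs_nonneg _) (Finset.mem_range.2 (by omega))
    exact (le_abs_self _).trans h1
  refine ⟨fun n => Nat.findGreatest (fun J => D J ≤ n) n, ?_, ?_⟩
  · rw [tendsto_atTop]
    intro J
    obtain ⟨m, hm⟩ := exists_nat_ge (D J)
    filter_upwards [eventually_ge_atTop (max J m)] with n hn
    refine Nat.le_findGreatest ((le_max_left _ _).trans hn) ?_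
    have : (m : ℝ) ≤ n := by exact_mod_cast (le_max_right _ _).trans hn
    linarith
  · intro n j h0 hj
    have h1 : D (Nat.findGreatest (fun J => D J ≤ n) n) ≤ n :=
      Nat.findGreatest_of_ne_zero (P := fun J => D J ≤ n) rfl h0.ne'
    exact hC j n ((hDC _ j hj).trans h1)

/-- the facts for one window -/
def Win (B : ℝ) (x : ℝ) (𝔮 : Ideal (𝓞 K)) : Prop :=
  2 ≤ Ideal.absNorm 𝔮 ∧ (Fam 𝔮 B).Finite ∧ ((∃ χ, IsPrim 𝔮 χ) → (Fam 𝔮 B).Nonempty) ∧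
  (∀ t ∈ Fam 𝔮 B, ∃ Λ, IsCompleted t.κ t.lam t.ψ Λ) ∧
  ∀ Λ : HDat 𝔮 → ℂ → ℂ, (∀ t ∈ Fam 𝔮 B, IsCompleted t.κ t.lam t.ψ (Λ t)) →
  ∀ F : Finset (HDat 𝔮), (∀ t, t ∈ F ↔ t ∈ Fam 𝔮 B) →
    ENNReal.ofReal (355 / 1000 * (F.card * (x *
      (Real.log (Ideal.absNorm 𝔮) / (2 * Real.pi))))) ≤ ∑ t ∈ F, simpleCritical (Λ t) 0 x ∧
    ∀ G : Finset (HDat 𝔮), G ⊆ F →
      ∑ t ∈ G, allZeros (Λ t) 0 x ≤ ENNReal.ofReal ((G.card + 1 / 1000 * F.card) *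
        ((1 + 1 / 1000) * (Real.log (Ideal.absNorm 𝔮) / (2 * Real.pi)) * x))

theorem fts {𝔮 : Ideal (𝓞 K)} {B : ℝ} {F : Finset (HDat 𝔮)} (hF : ∀ t, t ∈ F ↔ t ∈ Fam 𝔮 B)
    (f : HDat 𝔮 → ℝ≥0∞) : ∑' t : Fam 𝔮 B, f t = ∑ t ∈ F, f t := by
  have h1 : (Fam 𝔮 B) = (F : Set (HDat 𝔮)) := by
    ext t
    rw [Finset.mem_coe, hF]
  rw [h1]
  exact Finset.tsum_subtype F f

theorem fncard {𝔮 : Ideal (𝓞 K)} {B : ℝ} {F : Finset (HDat 𝔮)}
    (hF : ∀ t, t ∈ F ↔ t ∈ Fam 𝔮 B) : (Fam 𝔮 B).ncard = F.card := by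
  have h1 : (Fam 𝔮 B) = (F : Set (HDat 𝔮)) := by
    ext t
    rw [Finset.mem_coe, hF]
  rw [h1, Set.ncard_coe_finset]

theorem win (K : Type) [Field K] [NumberField K] {B x : ℝ} (hB : 0 < B) (hx : 0 < x) :
    ∃ C : ℝ, ∀ 𝔮 : Ideal (𝓞 K), C ≤ Ideal.absNorm 𝔮 → Win B x 𝔮 := by
  obtain ⟨C1, h1⟩ := main (K := K) hB hx
  obtain ⟨C2, h2⟩ := fam_good (K := K) (ε := 1 / 1000) (c := 1 / 1000) hB hx (by norm_num)
    (by norm_num) (by norm_num)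
  refine ⟨max (max C1 C2) 2, fun 𝔮 hN => ?_⟩
  have hN1 : C1 ≤ Ideal.absNorm 𝔮 := ((le_max_left _ _).trans (le_max_left _ _)).trans hN
  have hN2 : C2 ≤ Ideal.absNorm 𝔮 := ((le_max_right _ _).trans (le_max_left _ _)).trans hN
  have hN3 : (2 : ℝ) ≤ Ideal.absNorm 𝔮 := (le_max_right _ _).trans hN
  obtain ⟨a1, a2, a3, a4⟩ := h1 𝔮 hN1
  refine ⟨by exact_mod_cast hN3, a1, a2, a3, fun Λ hΛ F hF => ⟨?_, fun G hG => ?_⟩⟩
  · have h3 := (a4 Λ hΛ).2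
    rw [fts hF (fun t => simpleCritical (Λ t) 0 x), fncard hF, sub_zero] at h3
    exact h3
  · have h3 := h2 𝔮 hN2 F hF G hG Λ fun t ht => hΛ t ((hF t).1 ht)
    rw [sub_zero] at h3
    exact h3

theorem main_T (K : Type) [Field K] [NumberField K] {B : ℝ} (hB : 0 < B) :
    ∃ T₁ : ℕ → ℝ, Tendsto T₁ atTop atTop ∧ ∀ (𝔮 : Ideal (𝓞 K)) (T : ℝ), 1 ≤ T →
      T ≤ T₁ (Ideal.absNorm 𝔮) →
      (Fam 𝔮 B).Finite ∧ ((∃ χ, IsPrim 𝔮 χ) → (Fam 𝔮 B).Nonempty) ∧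
      (∀ t ∈ Fam 𝔮 B, ∃ Λ, IsCompleted t.κ t.lam t.ψ Λ) ∧
      ∀ Λ : HDat 𝔮 → ℂ → ℂ, (∀ t ∈ Fam 𝔮 B, IsCompleted t.κ t.lam t.ψ (Λ t)) →
        ((Fam 𝔮 B).ncard : ℝ) / 3 ≤ ({t ∈ Fam 𝔮 B | ENNReal.ofReal (1 / 100 *
          (T * (Real.log (Ideal.absNorm 𝔮) / (2 * Real.pi)))) ≤ nSimple (Λ t) T}.ncard : ℝ) ∧
        ENNReal.ofReal (35 / 100 * ((Fam 𝔮 B).ncard *
          (T * (Real.log (Ideal.absNorm 𝔮) / (2 * Real.pi))))) ≤
          ∑' t : Fam 𝔮 B, nSimple (Λ t) T ∧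
        ∑' t : Fam 𝔮 B, nAll (Λ t) T ≤ ENNReal.ofReal (101 / 100 * ((Fam 𝔮 B).ncard *
          (T * (Real.log (Ideal.absNorm 𝔮) / (2 * Real.pi))))) := by
  classical
  obtain ⟨J, hJ, hJ2⟩ := diag (fun j n => ∀ 𝔮 : Ideal (𝓞 K), Ideal.absNorm 𝔮 = n →
    Win B (((j : ℝ) + 1) / 200) 𝔮) (by
      intro j
      obtain ⟨C, hC⟩ := win K (B := B) (x := ((j : ℝ) + 1) / 200) hB (by positivity)
      refine ⟨C, fun n hn 𝔮 h𝔮 => hC 𝔮 ?_⟩
      rw [h𝔮]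
      exact hn)
  refine ⟨fun n => (J n : ℝ) / 200 - 1, ?_, ?_⟩
  · refine tendsto_atTop_add_const_right _ (-1) ?_
    exact (tendsto_natCast_atTop_atTop.comp hJ).atTop_div_const (by norm_num)
  intro 𝔮 T hT1 hT
  set n := Ideal.absNorm 𝔮 with hn
  have hT' : 200 * T + 200 ≤ J n := by
    have : T ≤ (J n : ℝ) / 200 - 1 := hT
    linarith
  have hJ0 : 0 < J n := by
    have : (0 : ℝ) < J n := by linarith
    exact_mod_cast this
  set k : ℕ := ⌊200 * T⌋₊ with hk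
  have hk1 : (k : ℝ) ≤ 200 * T := Nat.floor_le (by linarith)
  have hk2 : 200 * T < (k : ℝ) + 1 := Nat.lt_floor_add_one _
  have hk0 : 200 ≤ k := by
    rw [hk]
    apply Nat.le_floor
    push_cast
    linarith
  have hkJ : k ≤ J n := by
    have : (k : ℝ) ≤ J n := by linarith
    exact_mod_cast this
  -- the two windows
  set a : ℝ := (k : ℝ) / 200 with ha
  set b : ℝ := ((k : ℝ) + 1) / 200 with hb
  have hWa : Win B a 𝔮 := by
    have h := hJ2 n (k - 1) hJ0 (by omega) 𝔮 rfl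
    have e : ((k - 1 : ℕ) : ℝ) + 1 = k := by
      rw [Nat.cast_sub (by omega)]
      push_cast
      ring
    rw [e] at h
    exact h
  have hWb : Win B b 𝔮 := hJ2 n k hJ0 hkJ 𝔮 rfl
  obtain ⟨hN2, hfin, hne, hex, hWa'⟩ := hWa
  obtain ⟨-, -, -, -, hWb'⟩ := hWb
  refine ⟨hfin, hne, hex, fun Λ hΛ => ?_⟩
  set F : Finset (HDat 𝔮) := hfin.toFinset with hFd
  have hF : ∀ t, t ∈ F ↔ t ∈ Fam 𝔮 B := fun t => hfin.mem_toFinset
  obtain ⟨hs, -⟩ := hWa' Λ hΛ F hF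
  obtain ⟨-, hu⟩ := hWb' Λ hΛ F hF
  set LN : ℝ := Real.log n / (2 * Real.pi) with hLN
  have hLN0 : 0 < LN := by
    have h1 : 0 < Real.log n := Real.log_pos (by exact_mod_cast hN2)
    have := Real.pi_pos
    positivity
  have haT : a ≤ T := by rw [ha]; linarith
  have hbT : T < b := by rw [hb]; linarith
  have ha2 : 995 / 1000 * T ≤ a := by rw [ha]; linarith
  have hb2 : b ≤ 1005 / 1000 * T := by rw [hb]; linarith
  have hF0 : (0 : ℝ) ≤ F.card := Nat.cast_nonneg _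
  have hTL : 0 < T * LN := by positivity
  have hsum : ENNReal.ofReal (353 / 1000 * (F.card * (T * LN))) ≤ ∑ t ∈ F, nSimple (Λ t) T := by
    refine le_trans (ENNReal.ofReal_le_ofReal ?_)
      (hs.trans (Finset.sum_le_sum fun t _ => simple_le (Λ t) haT))
    have h1 : 995 / 1000 * (F.card * (T * LN)) ≤ F.card * (a * LN) := by
      have := mul_le_mul_of_nonneg_left ha2 (mul_nonneg hF0 hLN0.le)
      linarith
    have h2 : 0 ≤ (F.card : ℝ) * (T * LN) := mul_nonneg hF0 hTL.le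
    linarith
  have hall : ∀ G : Finset (HDat 𝔮), G ⊆ F → ∑ t ∈ G, nAll (Λ t) T ≤
      ENNReal.ofReal ((G.card + 1 / 1000 * F.card) * (1007 / 1000 * (T * LN))) := by
    intro G hG
    refine (Finset.sum_le_sum fun t _ => all_le (Λ t) hbT).trans
      ((hu G hG).trans (ENNReal.ofReal_le_ofReal ?_))
    apply mul_le_mul_of_nonneg_left _ (by positivity)
    have := mul_le_mul_of_nonneg_left hb2 hLN0.le
    nlinarith
  rw [fncard hF, fts hF (fun t => nSimple (Λ t) T), fts hF (fun t => nAll (Λ t) T)]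
  refine ⟨?_, ?_, ?_⟩
  · set m : ℝ := 1 / 100 * (T * LN) with hm
    have hm0 : 0 < m := by positivity
    set G : Finset (HDat 𝔮) := F.filter (fun t => ENNReal.ofReal m ≤ nSimple (Λ t) T) with hG
    have hset : {t ∈ Fam 𝔮 B | ENNReal.ofReal m ≤ nSimple (Λ t) T} = (G : Set (HDat 𝔮)) := by
      ext t
      rw [hG, Finset.mem_coe, Finset.mem_filter, hF]
      rfl
    rw [hset, Set.ncard_coe_finset]
    have h1 : ∑ t ∈ F, nSimple (Λ t) T ≤ ENNReal.ofReal ((G.card + 1 / 1000 * F.card) *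
        (1007 / 1000 * (T * LN))) + ENNReal.ofReal (F.card * m) := by
      rw [← Finset.sum_filter_add_sum_filter_not F
        (fun t => ENNReal.ofReal m ≤ nSimple (Λ t) T)]
      refine add_le_add ?_ ?_
      · exact (Finset.sum_le_sum fun t _ => simple_le_all (Λ t) T).trans
          (hall G (Finset.filter_subset _ _))
      · refine (Finset.sum_le_card_nsmul _ _ (ENNReal.ofReal m) ?_).trans ?_
        · intro t ht
          exact (not_le.1 (Finset.mem_filter.1 ht).2).le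
        · rw [nsmul_eq_mul, ENNReal.ofReal_mul hF0, ENNReal.ofReal_natCast]
          gcongr
          exact Finset.filter_subset _ _
    have h2 := hsum.trans h1
    rw [← ENNReal.ofReal_add (by positivity) (by positivity),
      ENNReal.ofReal_le_ofReal_iff (by positivity)] at h2
    have h3 : 353 / 1000 * (F.card : ℝ) ≤ (G.card + 1 / 1000 * F.card) * (1007 / 1000) +
        F.card * (1 / 100) := by
      have h4 : (353 / 1000 * (F.card : ℝ)) * (T * LN) ≤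
          ((G.card + 1 / 1000 * F.card) * (1007 / 1000) + F.card * (1 / 100)) * (T * LN) := by
        rw [hm] at h2
        linarith
      exact le_of_mul_le_mul_right h4 hTL
    have hG0 : (0 : ℝ) ≤ G.card := Nat.cast_nonneg _
    linarith
  · refine le_trans (ENNReal.ofReal_le_ofReal ?_) hsum
    have h2 : 0 ≤ (F.card : ℝ) * (T * LN) := mul_nonneg hF0 hTL.le
    linarith
  · refine (hall F (Finset.Subset.refl _)).trans (ENNReal.ofReal_le_ofReal ?_)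
    have h2 : 0 ≤ (F.card : ℝ) * (T * LN) := mul_nonneg hF0 hTL.le
    nlinarith

end Pool.Agent.QH
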