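import Pool.Agent.Lib_helper39.LVX.TC6

/-!
# Zeros of subfamilies

The upper bound for the number of all zeros holds for every subfamily of positive proportion (the
mean square conditions do, with other constants). Hence a positive proportion of the Hecke
L-functions have many simple zeros.
-/

set_option autoImplicit false

namespace Pool.Agent.QH

open NumberField NumberField.InfinitePlace NumberField.Units Complex MeasureTheory Filter Topology
open Pool.Agent.HZ Pool.Agent.AS Pool.Agent.KS Pool.Agent.LVK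
open scoped ENNReal

variable {K : Type} [Field K] [NumberField K]

/-- the mean over a subset -/
theorem sub_le {α : Type*} {E E' : Finset α} (hsub : E' ⊆ E) {f : α → ℝ}
    (hf : ∀ t ∈ E, 0 ≤ f t) {X Y c : ℝ} (hX : ∑ t ∈ E, f t ≤ E.card * X) (hXY : X ≤ c * Y)
    (hY : 0 ≤ Y) (hc : c * E.card ≤ E'.card) : ∑ t ∈ E', f t ≤ E'.card * Y := by
  calc ∑ t ∈ E', f t ≤ ∑ t ∈ E, f t :=
        Finset.sum_le_sum_of_subset_of_nonneg hsub fun t ht _ => hf t ht
    _ ≤ E.card * X := hX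
    _ ≤ E.card * (c * Y) := mul_le_mul_of_nonneg_left hXY (Nat.cast_nonneg _)
    _ = (c * E.card) * Y := by ring
    _ ≤ E'.card * Y := mul_le_mul_of_nonneg_right hc hY

theorem per_sub {κ : InfinitePlace K → ℤ}
    (hκ : ∀ w : InfinitePlace K, w.IsReal → κ w = 0 ∨ κ w = 1) {x1 x2 B ε c : ℝ}
    (hB : 0 < B) (hx : x1 < x2) (hε : 0 < ε) (hc : 0 < c) :
    ∃ C : ℝ, ∀ 𝔮 : Ideal (𝓞 K), C ≤ Ideal.absNorm 𝔮 → ∀ E : Finset (HDat 𝔮),
      (∀ t, t ∈ E ↔ t ∈ FamB 𝔮 κ B) → ∀ E' : Finset (HDat 𝔮), E' ⊆ E → c * E.card ≤ E'.card →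
      ∀ Λ : HDat 𝔮 → ℂ → ℂ, (∀ t ∈ E, IsCompleted t.κ t.lam t.ψ (Λ t)) →
      ∑ t ∈ E', allZeros (Λ t) x1 x2 ≤ ENNReal.ofReal (E'.card * ((1 + ε) *
        (Real.log (Ideal.absNorm 𝔮) / (2 * Real.pi)) * (x2 - x1))) := by
  classical
  have hb : |(-28 / 125 : ℝ)| ≤ 1 / 2 := by
    rw [abs_le]
    constructor <;> norm_num
  have hccn := LVA.cc_num
  have hcc : 0 < LVA.cc (-28 / 125) (4999 / 10000) (31 / 25) (26 / 25) := by
    have := hccn.1
    linarith
  obtain ⟨s2, hs2, hr1, hr2⟩ := right_line K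
  set T₀ : ℝ := |x1| + |x2| + 2 * s2 + 3 with hT₀
  have hT0 : 0 ≤ T₀ := by positivity
  obtain ⟨C0', hC0', hok⟩ := ldat_ok hκ hB hb (θ := 4999 / 10000) (by norm_num)
    (R := 31 / 25) (by norm_num) hs2 hr1 hr2 T₀
  obtain ⟨C1, hC1, hcr⟩ := fam_crude hκ (b := -28 / 125) (θ := 4999 / 10000) (R := 31 / 25)
    (lm := 26 / 25) (s2 := s2) (T₀ := T₀) (B := B) hb (by norm_num) (by norm_num) (by norm_num)
    hs2 hB
  obtain ⟨δ₀, hδ₀, hz⟩ := z_topA (x1 := x1) (x2 := x2) (R := 31 / 25) (lam := 26 / 25)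
    (C0 := C0') (C1 := C1 / c) (s2 := s2) (T := T₀)
    (cc := (LVA.cc (-28 / 125) (4999 / 10000) (31 / 25) (26 / 25) + 1) / c) (ε := ε) hx
    (by norm_num) (by norm_num) (by norm_num) hC0' (by positivity) hs2 le_rfl hε
  obtain ⟨ℒ₀, hz'⟩ := hz δ₀ hδ₀ le_rfl
  set δ' : ℝ := min (min (δ₀ / 2) (c * δ₀)) 1 with hδ'
  have hδ'0 : 0 < δ' := by positivity
  have hδ'1 : δ' ≤ δ₀ / 2 := (min_le_left _ _).trans (min_le_left _ _)
  have hδ'2 : δ' ≤ c * δ₀ := (min_le_left _ _).trans (min_le_right _ _)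
  have hδ'3 : δ' ≤ 1 := min_le_right _ _
  obtain ⟨L₁, hL₁, hcr'⟩ := hcr δ' hδ'0
  obtain ⟨L₂, hL₂, hsh⟩ := fam_sharp hκ (b := -28 / 125) (θ := 4999 / 10000) (R := 31 / 25)
    (lm := 26 / 25) (x1 := x1) (x2 := x2) (B := B) (δ := δ') hb (by norm_num) (by norm_num)
    (by norm_num) hB hx hcc hδ'0
  set L₀ : ℝ := max (max L₁ L₂) (max (max ℒ₀ 1) (2 * |Real.log c| / δ₀)) with hL₀
  refine ⟨Real.exp L₀, ?_⟩
  intro 𝔮 hN E hE E' hsub hcE Λ hΛ
  have hN0 : (0 : ℝ) < Ideal.absNorm 𝔮 := (Real.exp_pos _).trans_le hN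
  have hLL : L₀ ≤ Real.log (Ideal.absNorm 𝔮) := by
    rwa [Real.le_log_iff_exp_le hN0]
  set L : ℝ := Real.log (Ideal.absNorm 𝔮) with hL
  have hE1 : L₁ ≤ L := ((le_max_left _ _).trans (le_max_left _ _)).trans hLL
  have hE2 : L₂ ≤ L := ((le_max_right _ _).trans (le_max_left _ _)).trans hLL
  have hE3 : ℒ₀ ≤ L :=
    (((le_max_left _ _).trans (le_max_left _ _)).trans (le_max_right _ _)).trans hLL
  have hL1 : 1 ≤ L :=
    (((le_max_right _ _).trans (le_max_left _ _)).trans (le_max_right _ _)).trans hLL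
  have hE4 : 2 * |Real.log c| / δ₀ ≤ L := ((le_max_right _ _).trans (le_max_right _ _)).trans hLL
  have h𝔮 : 𝔮 ≠ ⊥ := by
    rintro rfl
    rw [Ideal.absNorm_bot] at hN0
    simp at hN0
  have h𝔮' : 𝔮 ≠ ⊤ := by
    rintro rfl
    rw [hL, Ideal.absNorm_top] at hL1
    simp at hL1
    linarith
  have hcr2 := hcr' 𝔮 h𝔮 h𝔮' L hE1 hL E hE
  have hsh2 := hsh 𝔮 h𝔮 h𝔮' L hE2 hL E hE
  have hcard : (Fintype.card E' : ℝ) = E'.card := by rw [Fintype.card_coe]
  -- the constants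
  have hexp : Real.exp (δ' * L) ≤ c * Real.exp (δ₀ * L) := by
    have h1 : c * Real.exp (δ₀ * L) = Real.exp (Real.log c + δ₀ * L) := by
      rw [Real.exp_add, Real.exp_log hc]
    rw [h1]
    apply Real.exp_le_exp.2
    have h2 : 2 * |Real.log c| ≤ L * δ₀ := by rwa [div_le_iff₀ hδ₀] at hE4
    have h3 := neg_abs_le (Real.log c)
    have h4 : δ' * L ≤ δ₀ / 2 * L := mul_le_mul_of_nonneg_right hδ'1 (by linarith)
    nlinarith
  have hC1c : C1 ≤ c * (C1 / c) := by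
    rw [mul_div_cancel₀ _ hc.ne']
  have hfam : FamOk (fun i : E' => ldat (-28 / 125) (4999 / 10000) (31 / 25) L i.1) L (31 / 25)
      (26 / 25) (C1 / c) s2 T₀ x1 x2
      ((LVA.cc (-28 / 125) (4999 / 10000) (31 / 25) (26 / 25) + 1) / c) δ₀ := by
    refine ⟨?_, ?_, ?_, ?_, ?_⟩
    · intro σ h1 h2
      rw [hcard]
      have h3 := (hcr2 σ h2).1 h1
      have h4 := sub_le hsub (fun t _ => intervalIntegral.integral_nonneg (by linarith)
        fun _ _ => sq_nonneg _) h3 hexp (Real.exp_pos _).le hcE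
      rw [← Finset.sum_coe_sort] at h4
      exact h4
    · rw [hcard]
      have hY : 0 ≤ (x2 - x1) *
          ((LVA.cc (-28 / 125) (4999 / 10000) (31 / 25) (26 / 25) + 1) / c + δ₀) := by
        have : 0 < x2 - x1 := by linarith
        positivity
      have h4 := sub_le hsub (fun t _ => intervalIntegral.integral_nonneg (by linarith)
        fun _ _ => sq_nonneg _) hsh2 (Y := (x2 - x1) *
          ((LVA.cc (-28 / 125) (4999 / 10000) (31 / 25) (26 / 25) + 1) / c + δ₀)) (by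
          have h5 : c * ((x2 - x1) *
            ((LVA.cc (-28 / 125) (4999 / 10000) (31 / 25) (26 / 25) + 1) / c + δ₀)) =
            (x2 - x1) * ((LVA.cc (-28 / 125) (4999 / 10000) (31 / 25) (26 / 25) + 1) +
              c * δ₀) := by
            field_simp
          rw [h5]
          apply mul_le_mul_of_nonneg_left _ (by linarith)
          have : 0 < c * δ₀ := by positivity
          linarith) hY hcE
      rw [← Finset.sum_coe_sort] at h4
      exact h4
    · intro σ h1 h2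
      rw [hcard]
      have h3 := ((hcr2 σ h2).2.1 h1).1
      have h4 := sub_le hsub (fun t _ => intervalIntegral.integral_nonneg (by linarith)
        fun _ _ => sq_nonneg _) h3 hC1c (by positivity) hcE
      rw [← Finset.sum_coe_sort] at h4
      exact h4
    · intro σ h1 h2
      rw [hcard]
      have h3 := ((hcr2 σ h2).2.1 h1).2
      have h4 := sub_le hsub (fun t _ => intervalIntegral.integral_nonneg (by linarith)
        fun _ _ => sq_nonneg _) h3 hC1c (by positivity) hcE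
      rw [← Finset.sum_coe_sort] at h4
      exact h4
    · intro σ h1 h2
      rw [hcard]
      have h3 := (hcr2 σ h2).2.2 (by linarith)
      have h4 := sub_le hsub (fun t _ => intervalIntegral.integral_nonneg (by linarith)
        fun _ _ => sq_nonneg _) h3 hδ'2 hδ₀.le hcE
      rw [← Finset.sum_coe_sort] at h4
      exact h4
  have hmain := hz' L hE3 E' (fun i : E' => ldat (-28 / 125) (4999 / 10000) (31 / 25) L i.1)
    (fun i => hok 𝔮 h𝔮 h𝔮' L (by linarith) hL i.1 ((hE i.1).1 (hsub i.2))) hfam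
  rw [hcard] at hmain
  have hzer : ∀ i : E',
      allZ (ldat (-28 / 125) (4999 / 10000) (31 / 25) L i.1).ξ x1 x2 =
      allZeros (Λ i.1) x1 x2 := by
    intro i
    obtain ⟨hd', hk⟩ := famB_hd_pr h𝔮 h𝔮' hκ ((hE i.1).1 (hsub i.2))
    exact (ldat_zeros (hk.symm ▸ hd') _ _ _ _ (hΛ i.1 (hsub i.2)) x1 x2).2
  simp only [hzer] at hmain
  rw [Finset.sum_coe_sort E' (fun t => allZeros (Λ t) x1 x2)] at hmain
  exact hmain

/-- all subsets -/
theorem per_good {κ : InfinitePlace K → ℤ}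
    (hκ : ∀ w : InfinitePlace K, w.IsReal → κ w = 0 ∨ κ w = 1) {x1 x2 B ε c : ℝ}
    (hB : 0 < B) (hx : x1 < x2) (hε : 0 < ε) (hc : 0 < c) (hc1 : c ≤ 1) :
    ∃ C : ℝ, ∀ 𝔮 : Ideal (𝓞 K), C ≤ Ideal.absNorm 𝔮 → ∀ E : Finset (HDat 𝔮),
      (∀ t, t ∈ E ↔ t ∈ FamB 𝔮 κ B) → ∀ G : Finset (HDat 𝔮), G ⊆ E →
      ∀ Λ : HDat 𝔮 → ℂ → ℂ, (∀ t ∈ E, IsCompleted t.κ t.lam t.ψ (Λ t)) →
      ∑ t ∈ G, allZeros (Λ t) x1 x2 ≤ ENNReal.ofReal ((G.card + c * E.card) * ((1 + ε) *
        (Real.log (Ideal.absNorm 𝔮) / (2 * Real.pi)) * (x2 - x1))) := by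
  classical
  obtain ⟨C, hC⟩ := per_sub (c := c / 2) hκ hB hx hε (by positivity)
  refine ⟨max C 1, fun 𝔮 hN E hE G hG Λ hΛ => ?_⟩
  have hNC : C ≤ Ideal.absNorm 𝔮 := (le_max_left _ _).trans hN
  have hN1 : (1 : ℝ) ≤ Ideal.absNorm 𝔮 := (le_max_right _ _).trans hN
  set Q : ℝ := (1 + ε) * (Real.log (Ideal.absNorm 𝔮) / (2 * Real.pi)) * (x2 - x1) with hQ
  have hQ0 : 0 ≤ Q := by
    have h1 : 0 ≤ Real.log (Ideal.absNorm 𝔮) := Real.log_nonneg hN1
    have h2 : 0 < x2 - x1 := by linarith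
    positivity
  have hE0 : (0 : ℝ) ≤ E.card := Nat.cast_nonneg _
  by_cases hG1 : c / 2 * E.card ≤ G.card
  · refine (hC 𝔮 hNC E hE G hG hG1 Λ hΛ).trans (ENNReal.ofReal_le_ofReal ?_)
    apply mul_le_mul_of_nonneg_right _ hQ0
    have : 0 ≤ c * E.card := by positivity
    linarith
  · push Not at hG1
    rcases Finset.eq_empty_or_nonempty G with rfl | hne
    · simp
    · have hG0 : (1 : ℝ) ≤ G.card := by exact_mod_cast hne.card_pos
      set n : ℕ := ⌈c / 2 * (E.card : ℝ)⌉₊ with hn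
      have hn1 : G.card ≤ n := by
        have : (G.card : ℝ) ≤ n := hG1.le.trans (Nat.le_ceil _)
        exact_mod_cast this
      have hn2 : n ≤ E.card := by
        rw [hn, Nat.ceil_le]
        nlinarith
      obtain ⟨E', h1, h2, h3⟩ := Finset.exists_subsuperset_card_eq hG hn1 hn2
      have h4 := hC 𝔮 hNC E hE E' h2 (by rw [h3]; exact Nat.le_ceil _) Λ hΛ
      refine (Finset.sum_le_sum_of_subset h1).trans (h4.trans (ENNReal.ofReal_le_ofReal ?_))
      apply mul_le_mul_of_nonneg_right _ hQ0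
      rw [h3]
      have h5 : (n : ℝ) < c / 2 * E.card + 1 := Nat.ceil_lt_add_one (by positivity)
      linarith

end Pool.Agent.QH
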